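import Mathlib

-- part MP_9e511b_an.Local
section

set_option autoImplicit false

open MeasureTheory Metric Set Module
open scoped ENNReal

namespace Pool.Agent.MP_9e511b_an

variable {E : Type*} [NormedAddCommGroup E] [NormedSpace ℝ E] [FiniteDimensional ℝ E]
  [MeasurableSpace E] [BorelSpace E] (μ : Measure E) [μ.IsAddHaarMeasure]

/-- Scaling of a Lebesgue integral under the homothety centred at `z`. -/
theorem lintegral_homothety (G : E → ℝ≥0∞) (hG : Measurable G) (z : E) {t : ℝ} (ht : 0 < t) :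
    ∫⁻ w, G (z + t • (w - z)) ∂μ = ENNReal.ofReal ((t ^ finrank ℝ E)⁻¹) * ∫⁻ w, G w ∂μ := by
  have h1 : ∫⁻ w, G (z + t • (w - z)) ∂μ = ∫⁻ w, G (z + t • w) ∂μ :=
    lintegral_sub_right_eq_self (μ := μ) (fun w => G (z + t • w)) z
  have hm : Measurable (fun w : E => G (z + w)) := hG.comp (measurable_const_add z)
  have h2 : ∫⁻ w, G (z + t • w) ∂μ = ∫⁻ w, G (z + w) ∂(Measure.map (t • ·) μ) := by
    rw [lintegral_map hm (measurable_const_smul t)]
  rw [h1, h2, Measure.map_addHaar_smul μ ht.ne', lintegral_smul_measure,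
    lintegral_add_left_eq_self (μ := μ) G z, abs_of_nonneg (by positivity)]
  rfl

/-- A crude Young inequality. -/
theorem young_crude {g s p : ℝ} (hg : 0 ≤ g) (hs : 0 < s) (hp : 1 ≤ p) :
    g ≤ s + s ^ (1 - p) * g ^ p := by
  rcases le_or_gt g s with h | h
  · have : 0 ≤ s ^ (1 - p) * g ^ p := by positivity
    linarith
  · have hg' : 0 < g := hs.trans h
    have h1 : g ^ (1 - p) ≤ s ^ (1 - p) :=
      Real.rpow_le_rpow_of_nonpos hs h.le (by linarith)
    have h2 : g = g ^ (1 - p) * g ^ p := by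
      rw [← Real.rpow_add hg']; simp
    have h3 : g ^ (1 - p) * g ^ p ≤ s ^ (1 - p) * g ^ p :=
      mul_le_mul_of_nonneg_right h1 (by positivity)
    linarith

omit [FiniteDimensional ℝ E] [MeasurableSpace E] [BorelSpace E] in
/-- Fundamental theorem of calculus along a segment. -/
theorem abs_sub_le_lintegral {f : E → ℝ} (hf : ContDiff ℝ 1 f) (z w : E) :
    ENNReal.ofReal |f w - f z| ≤
      ∫⁻ t in Ioc (0 : ℝ) 1, ENNReal.ofReal (‖fderiv ℝ f (z + t • (w - z))‖ * ‖w - z‖) := by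
  have hd : Differentiable ℝ f := hf.differentiable one_ne_zero
  have hc : Continuous (fderiv ℝ f) := hf.continuous_fderiv one_ne_zero
  have hder : ∀ t ∈ uIcc (0 : ℝ) 1, HasDerivAt (fun t : ℝ => f (z + t • (w - z)))
      (fderiv ℝ f (z + t • (w - z)) (w - z)) t := by
    intro t _
    have h1 : HasDerivAt (fun t : ℝ => z + t • (w - z)) (w - z) t := by
      simpa using ((hasDerivAt_id t).smul_const (w - z)).const_add z
    exact (hd (z + t • (w - z))).hasFDerivAt.comp_hasDerivAt t h1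
  have hcont : Continuous (fun t : ℝ => fderiv ℝ f (z + t • (w - z)) (w - z)) := by
    have : Continuous (fun t : ℝ => fderiv ℝ f (z + t • (w - z))) := hc.comp (by fun_prop)
    exact this.clm_apply continuous_const
  have hftc := intervalIntegral.integral_eq_sub_of_hasDerivAt hder (hcont.intervalIntegrable 0 1)
  simp only [one_smul, add_sub_cancel, zero_smul, add_zero] at hftc
  rw [← hftc, intervalIntegral.integral_of_le zero_le_one, ← Real.enorm_eq_ofReal_abs]
  refine (enorm_integral_le_lintegral_enorm _).trans (lintegral_mono fun t => ?_)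
  rw [Real.enorm_eq_ofReal_abs]
  refine ENNReal.ofReal_le_ofReal ?_
  rw [← Real.norm_eq_abs]
  exact ContinuousLinearMap.le_opNorm _ _

theorem lintegral_rpow_neg {β : ℝ} (hβ : β < 1) :
    ∫⁻ t in Ioc (0 : ℝ) 1, ENNReal.ofReal (t ^ (-β)) = ENNReal.ofReal (1 / (1 - β)) := by
  have h : -1 < -β := by linarith
  have hi : IntegrableOn (fun t : ℝ => t ^ (-β)) (Ioc 0 1) :=
    (intervalIntegral.intervalIntegrable_rpow' (a := 0) (b := 1) h).1
  rw [← ofReal_integral_eq_lintegral_ofReal hi]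
  · rw [← intervalIntegral.integral_of_le zero_le_one, integral_rpow (Or.inl h)]
    congr 1
    rw [Real.one_rpow, Real.zero_rpow (by linarith)]
    ring
  · filter_upwards [ae_restrict_mem measurableSet_Ioc] with t ht
    exact Real.rpow_nonneg ht.1.le _

/-- Averaged Morrey estimate at a point. -/
theorem local_est {f : E → ℝ} (hf : ContDiff ℝ 1 f) (z : E) {R σ p : ℝ} (hR : 0 < R)
    (hσ : 0 < σ) (hp1 : 1 ≤ p) (hp : (finrank ℝ E : ℝ) < p) :
    ∫⁻ w in ball z R, ENNReal.ofReal |f w - f z| ∂μ ≤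
      ENNReal.ofReal (R * σ / (1 - finrank ℝ E / p)) * μ (ball z R) +
        ENNReal.ofReal (R * σ ^ (1 - p) / (1 - finrank ℝ E / p)) *
          ∫⁻ w in ball z R, ENNReal.ofReal (‖fderiv ℝ f w‖ ^ p) ∂μ := by
  set d : ℕ := finrank ℝ E with hd
  set β : ℝ := d / p with hβ
  have hp0 : 0 < p := by linarith
  have hβ1 : β < 1 := by rw [hβ, div_lt_one hp0]; exact hp
  have hc : Continuous (fderiv ℝ f) := hf.continuous_fderiv one_ne_zero
  set G : E → ℝ≥0∞ := (ball z R).indicator (fun w => ENNReal.ofReal (‖fderiv ℝ f w‖ ^ p)) with hG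
  have hGm : Measurable G := by
    refine Measurable.indicator ?_ measurableSet_ball
    exact ENNReal.measurable_ofReal.comp ((hc.norm.rpow_const (fun _ => Or.inr hp0.le)).measurable)
  set I : ℝ≥0∞ := ∫⁻ w in ball z R, ENNReal.ofReal (‖fderiv ℝ f w‖ ^ p) ∂μ with hI
  have hGI : ∫⁻ w, G w ∂μ = I := by
    rw [hG, lintegral_indicator measurableSet_ball]
  set F : E → ℝ → ℝ≥0∞ := fun w t => ENNReal.ofReal (R * σ * t ^ (-β)) +
    ENNReal.ofReal (R * σ ^ (1 - p) * t ^ (β * (p - 1))) * G (z + t • (w - z)) with hF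
  have hFm : Measurable (Function.uncurry F) := by
    have h1 : Measurable (fun q : E × ℝ => q.2 ^ (-β)) := measurable_snd.pow_const _
    have h2 : Measurable (fun q : E × ℝ => q.2 ^ (β * (p - 1))) := measurable_snd.pow_const _
    have h3 : Measurable (fun q : E × ℝ => G (z + q.2 • (q.1 - z))) := hGm.comp (by fun_prop)
    exact (ENNReal.measurable_ofReal.comp (h1.const_mul _)).add
      ((ENNReal.measurable_ofReal.comp (h2.const_mul _)).mul h3)
  have step1 : ∀ w ∈ ball z R, ENNReal.ofReal |f w - f z| ≤ ∫⁻ t in Ioc (0 : ℝ) 1, F w t := by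
    intro w hw
    refine (abs_sub_le_lintegral hf z w).trans ?_
    refine setLIntegral_mono' measurableSet_Ioc fun t ht => ?_
    have hwz : ‖w - z‖ < R := by rwa [mem_ball, dist_eq_norm] at hw
    have hmem : z + t • (w - z) ∈ ball z R := by
      rw [mem_ball, dist_eq_norm, add_sub_cancel_left, norm_smul, Real.norm_eq_abs,
        abs_of_pos ht.1]
      calc t * ‖w - z‖ ≤ 1 * ‖w - z‖ := mul_le_mul_of_nonneg_right ht.2 (norm_nonneg _)
        _ < R := by rwa [one_mul]
    have ht0 : 0 < t := ht.1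
    set g := ‖fderiv ℝ f (z + t • (w - z))‖ with hg
    have hg0 : 0 ≤ g := norm_nonneg _
    have hs : 0 < σ * t ^ (-β) := by positivity
    have hy := young_crude hg0 hs hp1
    have hpow : (σ * t ^ (-β)) ^ (1 - p) = σ ^ (1 - p) * t ^ (β * (p - 1)) := by
      rw [Real.mul_rpow hσ.le (by positivity), ← Real.rpow_mul ht0.le]
      congr 2; ring
    rw [hpow] at hy
    simp only [hF, hG, indicator_of_mem hmem]
    rw [← hg, ← ENNReal.ofReal_mul (by positivity), ← ENNReal.ofReal_add (by positivity)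
      (by positivity)]
    refine ENNReal.ofReal_le_ofReal ?_
    calc g * ‖w - z‖ ≤ g * R := mul_le_mul_of_nonneg_left hwz.le hg0
      _ ≤ (σ * t ^ (-β) + σ ^ (1 - p) * t ^ (β * (p - 1)) * g ^ p) * R :=
        mul_le_mul_of_nonneg_right hy hR.le
      _ = _ := by ring
  have step2 : ∀ t ∈ Ioc (0 : ℝ) 1, ∫⁻ w in ball z R, F w t ∂μ ≤
      ENNReal.ofReal (t ^ (-β)) * (ENNReal.ofReal (R * σ) * μ (ball z R) +
        ENNReal.ofReal (R * σ ^ (1 - p)) * I) := by
    intro t ht
    have ht0 : 0 < t := ht.1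
    have h3 : Measurable (fun w : E => G (z + t • (w - z))) := hGm.comp (by fun_prop)
    simp only [hF]
    rw [lintegral_add_left measurable_const, setLIntegral_const, lintegral_const_mul _ h3,
      mul_add]
    refine add_le_add ?_ ?_
    · rw [← mul_assoc, ← ENNReal.ofReal_mul (by positivity)]
      apply le_of_eq
      congr 2; ring
    · calc _ ≤ ENNReal.ofReal (R * σ ^ (1 - p) * t ^ (β * (p - 1))) *
            ∫⁻ w, G (z + t • (w - z)) ∂μ := by
            gcongr
            exact Measure.restrict_le_self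
        _ = _ := by
            rw [lintegral_homothety μ G hGm z ht0, hGI, ← mul_assoc, ← mul_assoc,
              ← ENNReal.ofReal_mul (by positivity), ← ENNReal.ofReal_mul (by positivity)]
            congr 2
            have e1 : (t ^ finrank ℝ E)⁻¹ = t ^ (-(d : ℝ)) := by
              rw [Real.rpow_neg ht0.le, Real.rpow_natCast]
            have e2 : t ^ (β * (p - 1)) * t ^ (-(d : ℝ)) = t ^ (-β) := by
              rw [← Real.rpow_add ht0]
              congr 1
              rw [hβ]; field_simp; ring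
            rw [e1, mul_assoc, e2]; ring
  calc ∫⁻ w in ball z R, ENNReal.ofReal |f w - f z| ∂μ
      ≤ ∫⁻ w in ball z R, (∫⁻ t in Ioc (0 : ℝ) 1, F w t) ∂μ :=
        setLIntegral_mono' measurableSet_ball step1
    _ = ∫⁻ t in Ioc (0 : ℝ) 1, ∫⁻ w in ball z R, F w t ∂μ :=
        lintegral_lintegral_swap hFm.aemeasurable
    _ ≤ ∫⁻ t in Ioc (0 : ℝ) 1, ENNReal.ofReal (t ^ (-β)) *
          (ENNReal.ofReal (R * σ) * μ (ball z R) + ENNReal.ofReal (R * σ ^ (1 - p)) * I) :=
        setLIntegral_mono' measurableSet_Ioc step2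
    _ = ENNReal.ofReal (1 / (1 - β)) *
          (ENNReal.ofReal (R * σ) * μ (ball z R) + ENNReal.ofReal (R * σ ^ (1 - p)) * I) := by
        have hm : Measurable (fun t : ℝ => ENNReal.ofReal (t ^ (-β))) :=
          ENNReal.measurable_ofReal.comp (measurable_id.pow_const (-β))
        rw [lintegral_mul_const _ hm, lintegral_rpow_neg hβ1]
    _ = _ := by
        have : 0 < 1 - β := by linarith
        rw [mul_add, ← mul_assoc, ← mul_assoc, ← ENNReal.ofReal_mul (by positivity),
          ← ENNReal.ofReal_mul (by positivity)]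
        congr 3 <;> ring

omit [NormedSpace ℝ E] [FiniteDimensional ℝ E] in
/-- Averaging over all balls of a fixed radius. -/
theorem lintegral_lintegral_ball [SecondCountableTopology E] [SFinite μ]
    (H : E → ℝ≥0∞) (hH : Measurable H) (s : ℝ) :
    ∫⁻ x, (∫⁻ y in ball x s, H y ∂μ) ∂μ = μ (ball 0 s) * ∫⁻ y, H y ∂μ := by
  set S : Set (E × E) := {q | dist q.2 q.1 < s} with hS
  have hSm : MeasurableSet S := (isOpen_lt (by fun_prop) continuous_const).measurableSet
  have h1 : ∀ x, ∫⁻ y in ball x s, H y ∂μ = ∫⁻ y, S.indicator (fun q => H q.2) (x, y) ∂μ := by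
    intro x
    rw [← lintegral_indicator measurableSet_ball]
    rfl
  simp_rw [h1]
  rw [lintegral_lintegral_swap
    (f := fun x y => S.indicator (fun q : E × E => H q.2) (x, y))
    (((hH.comp measurable_snd).indicator hSm).aemeasurable)]
  have h2 : ∀ y, ∫⁻ x, S.indicator (fun q : E × E => H q.2) (x, y) ∂μ = μ (ball 0 s) * H y := by
    intro y
    have : (fun x => S.indicator (fun q : E × E => H q.2) (x, y)) =
        (ball y s).indicator (fun _ => H y) := by
      ext x
      by_cases hx : x ∈ ball y s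
      · have : (x, y) ∈ S := by simpa [hS, dist_comm] using hx
        rw [indicator_of_mem this, indicator_of_mem hx]
      · have : (x, y) ∉ S := by simpa [hS, dist_comm] using hx
        rw [indicator_of_notMem this, indicator_of_notMem hx]
    rw [this, lintegral_indicator measurableSet_ball, setLIntegral_const,
      Measure.addHaar_ball_center, mul_comm]
  simp_rw [h2]
  rw [lintegral_const_mul _ hH]

end Pool.Agent.MP_9e511b_an

end

-- part MP_9e511b_an.Global
section

set_option autoImplicit false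

open MeasureTheory Metric Set Module
open scoped ENNReal

namespace Pool.Agent.MP_9e511b_an

variable {E : Type*} [NormedAddCommGroup E] [NormedSpace ℝ E] [FiniteDimensional ℝ E]
  [MeasurableSpace E] [BorelSpace E] (μ : Measure E) [μ.IsAddHaarMeasure]

omit [FiniteDimensional ℝ E] [MeasurableSpace E] [BorelSpace E] in
/-- An intermediate point on the segment from `y` to `x`. -/
theorem exists_mid {f : E → ℝ} (hf : Continuous f) {x y : E} {a s : ℝ} (ha : 0 ≤ a)
    (hy : f y = 0) (hx : a ≤ |f x|) (hxy : dist y x < s) :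
    ∃ z, |f z| = a ∧ dist z x < s := by
  have hc : Continuous (fun t : ℝ => |f (x + t • (y - x))|) := by fun_prop
  have hmem : a ∈ Icc (|f (x + (1 : ℝ) • (y - x))|) (|f (x + (0 : ℝ) • (y - x))|) := by
    simp [hy, ha, hx]
  obtain ⟨t, ht, hta⟩ := intermediate_value_Icc' (zero_le_one' ℝ) hc.continuousOn hmem
  refine ⟨x + t • (y - x), hta, ?_⟩
  rw [dist_eq_norm, add_sub_cancel_left, norm_smul, Real.norm_eq_abs, abs_of_nonneg ht.1]
  rw [dist_eq_norm] at hxy
  calc t * ‖y - x‖ ≤ 1 * ‖y - x‖ := mul_le_mul_of_nonneg_right ht.2 (norm_nonneg _)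
    _ < s := by rwa [one_mul]

/-- Near every point where `|f|` is large, either the low set or the energy is substantial. -/
theorem point_est {f : E → ℝ} (hf : ContDiff ℝ 1 f) {Ω : Set E} (hΩ : MeasurableSet Ω)
    (hsupp : ∀ x, f x ≠ 0 → x ∈ Ω) {m r R p : ℝ} (hm : 0 < m) (hR : 0 < R) (hRr : R ≤ r)
    (hp1 : 1 ≤ p) (hp : (finrank ℝ E : ℝ) < p)
    (hcov : ∀ x ∈ Ω, ∃ y, y ∉ Ω ∧ dist y x < 2 * r) {x : E} (hx : m / 2 < |f x|) :
    ENNReal.ofReal (3 / 4) * μ (ball 0 R) ≤
      ∫⁻ w in ball x (3 * r), ((Ω \ {u | m / 2 < |f u|}).indicator 1 w +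
        ENNReal.ofReal (4 * 16 ^ (p - 1) * (R / (m * (1 - finrank ℝ E / p))) ^ p) *
          ENNReal.ofReal (‖fderiv ℝ f w‖ ^ p)) ∂μ := by
  set β : ℝ := finrank ℝ E / p with hβ
  have hp0 : 0 < p := by linarith
  have hβ1 : 0 < 1 - β := by
    have : β < 1 := by rw [hβ, div_lt_one hp0]; exact hp
    linarith
  set G : Set E := Ω \ {u | m / 2 < |f u|} with hG
  have hfc : Continuous f := hf.continuous
  have hc : Continuous (fderiv ℝ f) := hf.continuous_fderiv one_ne_zero
  have hGm : MeasurableSet G :=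
    hΩ.diff (isOpen_lt continuous_const hfc.abs).measurableSet
  have hgm : Measurable (fun w => ENNReal.ofReal (‖fderiv ℝ f w‖ ^ p)) :=
    ENNReal.measurable_ofReal.comp ((hc.norm.rpow_const (fun _ => Or.inr hp0.le)).measurable)
  have hxΩ : x ∈ Ω := hsupp x (by
    intro h; rw [h, abs_zero] at hx; linarith)
  obtain ⟨y, hyΩ, hyx⟩ := hcov x hxΩ
  have hy0 : f y = 0 := by
    by_contra h; exact hyΩ (hsupp y h)
  obtain ⟨z, hz, hzx⟩ := exists_mid hfc (a := m / 4) (by positivity) hy0 (by linarith) hyx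
  have hsub : ball z R ⊆ ball x (3 * r) := by
    intro w hw
    rw [mem_ball] at hw ⊢
    have := dist_triangle w z x
    linarith
  set σ : ℝ := m * (1 - β) / (16 * R) with hσ
  have hσ0 : 0 < σ := by positivity
  have hloc := local_est μ hf z hR hσ0 hp1 hp
  rw [← hβ] at hloc
  set I : ℝ≥0∞ := ∫⁻ w in ball z R, ENNReal.ofReal (‖fderiv ℝ f w‖ ^ p) ∂μ with hI
  set b : ℝ≥0∞ := μ (ball z R) with hb
  set K : ℝ := 4 * 16 ^ (p - 1) * (R / (m * (1 - β))) ^ p with hK
  have hpt : ∀ w ∈ ball z R, (1 : ℝ≥0∞) ≤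
      G.indicator 1 w + ENNReal.ofReal (4 / m) * ENNReal.ofReal |f w - f z| := by
    intro w _
    by_cases hw : w ∈ G
    · rw [indicator_of_mem hw]; exact le_self_add
    · have hbig : m / 4 ≤ |f w - f z| := by
        by_contra hlt
        push Not at hlt
        have h1 : |f z| - |f w| ≤ |f w - f z| := by
          rw [abs_sub_comm]; exact abs_sub_abs_le_abs_sub _ _
        have h2 : |f w| - |f z| ≤ |f w - f z| := abs_sub_abs_le_abs_sub _ _
        apply hw
        refine ⟨hsupp w ?_, ?_⟩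
        · intro h0; rw [h0, abs_zero] at h1; rw [h0] at hlt; linarith
        · simp only [mem_ofPred_eq, not_lt]; linarith
      rw [indicator_of_notMem hw, zero_add, ← ENNReal.ofReal_mul (by positivity),
        ← ENNReal.ofReal_one]
      refine ENNReal.ofReal_le_ofReal ?_
      rw [div_mul_eq_mul_div, le_div_iff₀ hm]; linarith
  have hdm : Measurable (fun w => ENNReal.ofReal |f w - f z|) :=
    ENNReal.measurable_ofReal.comp ((hfc.sub continuous_const).abs.measurable)
  have hind : Measurable (G.indicator (1 : E → ℝ≥0∞)) := measurable_one.indicator hGm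
  have e1 : 4 / m * (R * σ / (1 - β)) = 1 / 4 := by
    rw [hσ]; field_simp; ring
  have e2 : 4 / m * (R * σ ^ (1 - p) / (1 - β)) = K := by
    have h16 : σ ^ (1 - p) = 16 ^ (p - 1) * (R / (m * (1 - β))) ^ (p - 1) := by
      rw [← Real.mul_rpow (by norm_num) (by positivity)]
      have : σ = (16 * (R / (m * (1 - β))))⁻¹ := by rw [hσ]; field_simp
      rw [this, Real.inv_rpow (by positivity), ← Real.rpow_neg (by positivity)]
      congr 1; ring
    have h17 : (R / (m * (1 - β))) ^ p = (R / (m * (1 - β))) ^ (p - 1) * (R / (m * (1 - β))) := by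
      rw [Real.rpow_sub_one (by positivity)]; field_simp
    rw [h16, hK, h17]; field_simp
  have h1 : b ≤ (∫⁻ w in ball z R, G.indicator 1 w ∂μ + ENNReal.ofReal K * I) +
      ENNReal.ofReal (1 / 4) * b := by
    calc b = ∫⁻ _ in ball z R, 1 ∂μ := by rw [setLIntegral_const, one_mul]
      _ ≤ ∫⁻ w in ball z R,
          (G.indicator 1 w + ENNReal.ofReal (4 / m) * ENNReal.ofReal |f w - f z|) ∂μ :=
          setLIntegral_mono' measurableSet_ball hpt
      _ = ∫⁻ w in ball z R, G.indicator 1 w ∂μ +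
          ENNReal.ofReal (4 / m) * ∫⁻ w in ball z R, ENNReal.ofReal |f w - f z| ∂μ := by
          rw [lintegral_add_left hind, lintegral_const_mul _ hdm]
      _ ≤ ∫⁻ w in ball z R, G.indicator 1 w ∂μ + ENNReal.ofReal (4 / m) *
          (ENNReal.ofReal (R * σ / (1 - β)) * b +
            ENNReal.ofReal (R * σ ^ (1 - p) / (1 - β)) * I) := by gcongr
      _ = _ := by
          rw [mul_add, ← mul_assoc, ← mul_assoc, ← ENNReal.ofReal_mul (by positivity),
            ← ENNReal.ofReal_mul (by positivity), e1, e2]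
          ring
  have hbfin : b ≠ ⊤ := measure_ball_lt_top.ne
  have h2 : ENNReal.ofReal (3 / 4) * b ≤
      ∫⁻ w in ball z R, G.indicator 1 w ∂μ + ENNReal.ofReal K * I := by
    have hsplit : b = ENNReal.ofReal (3 / 4) * b + ENNReal.ofReal (1 / 4) * b := by
      rw [← add_mul, ← ENNReal.ofReal_add (by norm_num) (by norm_num)]
      norm_num
    have hfin : ENNReal.ofReal (1 / 4) * b ≠ ⊤ := ENNReal.mul_ne_top ENNReal.ofReal_ne_top hbfin
    rw [← ENNReal.add_le_add_iff_right hfin, ← hsplit]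
    exact h1
  rw [← Measure.addHaar_ball_center μ z R]
  refine h2.trans ?_
  rw [hI, ← lintegral_const_mul _ hgm, ← lintegral_add_left hind]
  exact lintegral_mono_set hsub

/-- The set where `|f|` is large is controlled by the low set and the energy. -/
theorem low_set {f : E → ℝ} (hf : ContDiff ℝ 1 f) {Ω : Set E} (hΩ : MeasurableSet Ω)
    (hfin : μ Ω ≠ ⊤) (hsupp : ∀ x, f x ≠ 0 → x ∈ Ω) {m r ρ p : ℝ} (hm : 0 < m) (hr : 0 < r)
    (hρ : 0 < ρ) (hρ1 : ρ ≤ 1) (hp1 : 1 ≤ p) (hp : (finrank ℝ E : ℝ) < p)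
    (hint : Integrable (fun w => ‖fderiv ℝ f w‖ ^ p) μ)
    (hcov : ∀ x ∈ Ω, ∃ y, y ∉ Ω ∧ dist y x < 2 * r) :
    3 / 4 * ρ ^ finrank ℝ E * μ.real {u | m / 2 < |f u|} ≤
      3 ^ finrank ℝ E * (μ.real (Ω \ {u | m / 2 < |f u|}) +
        4 * 16 ^ (p - 1) * (ρ * r / (m * (1 - finrank ℝ E / p))) ^ p *
          ∫ w, ‖fderiv ℝ f w‖ ^ p ∂μ) := by
  set d : ℕ := finrank ℝ E with hd
  have hp0 : 0 < p := by linarith
  have hβ1 : 0 < 1 - (d : ℝ) / p := by
    have : (d : ℝ) / p < 1 := by rw [div_lt_one hp0]; exact hp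
    linarith
  set A : Set E := {u | m / 2 < |f u|} with hA
  set G : Set E := Ω \ A with hG
  set K : ℝ := 4 * 16 ^ (p - 1) * (ρ * r / (m * (1 - d / p))) ^ p with hK
  have hK0 : 0 ≤ K := by positivity
  have hfc : Continuous f := hf.continuous
  have hc : Continuous (fderiv ℝ f) := hf.continuous_fderiv one_ne_zero
  have hAm : MeasurableSet A := (isOpen_lt continuous_const hfc.abs).measurableSet
  have hGm : MeasurableSet G := hΩ.diff hAm
  have hgm : Measurable (fun w => ENNReal.ofReal (‖fderiv ℝ f w‖ ^ p)) :=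
    ENNReal.measurable_ofReal.comp ((hc.norm.rpow_const (fun _ => Or.inr hp0.le)).measurable)
  have hind : Measurable (G.indicator (1 : E → ℝ≥0∞)) := measurable_one.indicator hGm
  set H : E → ℝ≥0∞ := fun w => G.indicator 1 w +
    ENNReal.ofReal K * ENNReal.ofReal (‖fderiv ℝ f w‖ ^ p) with hH
  have hHm : Measurable H := hind.add (hgm.const_mul _)
  have hAΩ : A ⊆ Ω := by
    intro x hx
    apply hsupp x
    intro h
    simp only [hA, mem_ofPred_eq, h, abs_zero] at hx
    linarith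
  have hAfin : μ A ≠ ⊤ := ne_top_of_le_ne_top hfin (measure_mono hAΩ)
  have hGfin : μ G ≠ ⊤ := ne_top_of_le_ne_top hfin (measure_mono sdiff_subset)
  set J : ℝ := ∫ w, ‖fderiv ℝ f w‖ ^ p ∂μ with hJ
  have hJ0 : 0 ≤ J := integral_nonneg fun w => by positivity
  have hJe : ∫⁻ w, ENNReal.ofReal (‖fderiv ℝ f w‖ ^ p) ∂μ = ENNReal.ofReal J :=
    (ofReal_integral_eq_lintegral_ofReal hint (Filter.Eventually.of_forall fun w => by
      positivity)).symm
  have hRr : ρ * r ≤ r := by nlinarith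
  have key : ENNReal.ofReal (3 / 4) * μ (ball 0 (ρ * r)) * μ A ≤
      μ (ball 0 (3 * r)) * (μ G + ENNReal.ofReal K * ENNReal.ofReal J) := by
    calc ENNReal.ofReal (3 / 4) * μ (ball 0 (ρ * r)) * μ A
        = ∫⁻ _ in A, ENNReal.ofReal (3 / 4) * μ (ball 0 (ρ * r)) ∂μ := by
          rw [setLIntegral_const]
      _ ≤ ∫⁻ x in A, (∫⁻ w in ball x (3 * r), H w ∂μ) ∂μ :=
          setLIntegral_mono' hAm fun x hx =>
            point_est μ hf hΩ hsupp hm (by positivity) hRr hp1 hp hcov hx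
      _ ≤ ∫⁻ x, (∫⁻ w in ball x (3 * r), H w ∂μ) ∂μ :=
          lintegral_mono' Measure.restrict_le_self le_rfl
      _ = μ (ball 0 (3 * r)) * ∫⁻ w, H w ∂μ := lintegral_lintegral_ball μ H hHm _
      _ = _ := by
          simp only [hH]
          rw [lintegral_add_left hind, lintegral_const_mul _ hgm, lintegral_indicator_one hGm, hJe]
  set ω : ℝ := μ.real (ball 0 1) with hω
  have hω0 : 0 < ω := by
    rw [hω, measureReal_def]
    exact ENNReal.toReal_pos (measure_ball_pos μ _ one_pos).ne' measure_ball_lt_top.ne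
  have hωe : μ (ball 0 1) = ENNReal.ofReal ω := by
    rw [hω, measureReal_def, ENNReal.ofReal_toReal measure_ball_lt_top.ne]
  have hAe : μ A = ENNReal.ofReal (μ.real A) := by
    rw [measureReal_def, ENNReal.ofReal_toReal hAfin]
  have hGe : μ G = ENNReal.ofReal (μ.real G) := by
    rw [measureReal_def, ENNReal.ofReal_toReal hGfin]
  have hA0 : 0 ≤ μ.real A := measureReal_nonneg
  have hG0 : 0 ≤ μ.real G := measureReal_nonneg
  rw [Measure.addHaar_ball_of_pos μ 0 (by positivity : 0 < ρ * r),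
    Measure.addHaar_ball_of_pos μ 0 (by positivity : 0 < 3 * r), hωe, hAe, hGe, ← hd,
    ← ENNReal.ofReal_mul (by positivity), ← ENNReal.ofReal_mul (by positivity),
    ← ENNReal.ofReal_mul (by positivity), ← ENNReal.ofReal_mul (by positivity),
    ← ENNReal.ofReal_mul hK0, ← ENNReal.ofReal_add hG0 (by positivity),
    ← ENNReal.ofReal_mul (by positivity), ENNReal.ofReal_le_ofReal_iff (by positivity),
    mul_pow, mul_pow] at key
  have hrd : 0 < r ^ d * ω := by positivity
  refine le_of_mul_le_mul_left ?_ hrd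
  calc r ^ d * ω * (3 / 4 * ρ ^ d * μ.real A) = 3 / 4 * (ρ ^ d * r ^ d * ω) * μ.real A := by ring
    _ ≤ 3 ^ d * r ^ d * ω * (μ.real G + K * J) := key
    _ = _ := by ring

end Pool.Agent.MP_9e511b_an

end

-- part MP_9e511b_an.Main
section

set_option autoImplicit false

open MeasureTheory Metric Set Module
open scoped ENNReal

namespace Pool.Agent.MP_9e511b_an

variable {E : Type*} [NormedAddCommGroup E] [NormedSpace ℝ E] [FiniteDimensional ℝ E]
  [MeasurableSpace E] [BorelSpace E] (μ : Measure E) [μ.IsAddHaarMeasure]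

/-- Test functions on balls: the Rayleigh quotient scales like `r ^ (-p)`. -/
theorem exists_test (p : ℝ) :
    ∃ C : ℝ, 0 ≤ C ∧ ∀ (x₀ : E) (r : ℝ), 0 < r → ∃ φ : E → ℝ, ContDiff ℝ (⊤ : ℕ∞) φ ∧
      HasCompactSupport φ ∧ tsupport φ ⊆ ball x₀ r ∧ φ ≠ 0 ∧
      (∫ x, ‖fderiv ℝ φ x‖ ^ p ∂μ) / (∫ x, |φ x| ^ p ∂μ) = C / r ^ p := by
  let χ : ContDiffBump (0 : E) := ⟨1 / 4, 1 / 2, by norm_num, by norm_num⟩
  have hχ : ContDiff ℝ (⊤ : ℕ∞) χ := χ.contDiff
  refine ⟨(∫ x, ‖fderiv ℝ χ x‖ ^ p ∂μ) / (∫ x, |χ x| ^ p ∂μ),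
    div_nonneg (integral_nonneg fun _ => by positivity) (integral_nonneg fun _ => by positivity),
    fun x₀ r hr => ⟨fun x => χ (r⁻¹ • (x - x₀)), ?_, ?_, ?_, ?_, ?_⟩⟩
  · exact hχ.comp ((contDiff_id.sub contDiff_const).const_smul _)
  · refine HasCompactSupport.intro (isCompact_closedBall x₀ (r / 2)) fun x hx => ?_
    apply χ.zero_of_le_dist
    rw [mem_closedBall, not_le, dist_eq_norm] at hx
    rw [dist_zero_right, norm_smul, norm_inv, Real.norm_eq_abs, abs_of_pos hr]
    change 1 / 2 ≤ _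
    rw [inv_mul_eq_div, le_div_iff₀ hr]; linarith
  · refine (closure_minimal (t := closedBall x₀ (r / 2)) ?_ isClosed_closedBall).trans
      (closedBall_subset_ball (by linarith))
    intro x hx
    by_contra hx'
    apply hx
    apply χ.zero_of_le_dist
    rw [mem_closedBall, not_le, dist_eq_norm] at hx'
    rw [dist_zero_right, norm_smul, norm_inv, Real.norm_eq_abs, abs_of_pos hr]
    change 1 / 2 ≤ _
    rw [inv_mul_eq_div, le_div_iff₀ hr]; linarith
  · intro h
    have h1 := congrFun h x₀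
    simp only [sub_self, smul_zero, Pi.zero_apply] at h1
    have h2 : χ 0 = 1 := χ.one_of_mem_closedBall (mem_closedBall_self χ.rIn_pos.le)
    rw [h2] at h1
    exact one_ne_zero h1
  · have hd : Differentiable ℝ χ := hχ.differentiable (by simp)
    have hder : ∀ x, ‖fderiv ℝ (fun x => χ (r⁻¹ • (x - x₀))) x‖ ^ p =
        (r ^ p)⁻¹ * ‖fderiv ℝ χ (r⁻¹ • (x - x₀))‖ ^ p := by
      intro x
      have h1 : HasFDerivAt (fun x : E => r⁻¹ • (x - x₀)) (r⁻¹ • ContinuousLinearMap.id ℝ E) x :=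
        ((hasFDerivAt_id x).sub_const x₀).const_smul r⁻¹
      have h2 := (hd (r⁻¹ • (x - x₀))).hasFDerivAt.comp x h1
      have h3 : fderiv ℝ (fun x => χ (r⁻¹ • (x - x₀))) x =
          r⁻¹ • fderiv ℝ χ (r⁻¹ • (x - x₀)) := by
        have := h2.fderiv
        rw [ContinuousLinearMap.comp_smul, ContinuousLinearMap.comp_id] at this
        exact this
      rw [h3, norm_smul, norm_inv, Real.norm_eq_abs, abs_of_pos hr,
        Real.mul_rpow (by positivity) (norm_nonneg _), Real.inv_rpow hr.le]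
    simp_rw [hder]
    rw [integral_const_mul,
      integral_sub_right_eq_self (μ := μ) (fun x => ‖fderiv ℝ χ (r⁻¹ • x)‖ ^ p) x₀,
      integral_sub_right_eq_self (μ := μ) (fun x => |χ (r⁻¹ • x)| ^ p) x₀,
      Measure.integral_comp_inv_smul_of_nonneg μ (fun x => ‖fderiv ℝ χ x‖ ^ p) hr.le,
      Measure.integral_comp_inv_smul_of_nonneg μ (fun x => |χ x| ^ p) hr.le,
      smul_eq_mul, smul_eq_mul]
    have h1 : 0 < r ^ finrank ℝ E := by positivity
    have h2 : 0 < r ^ p := by positivity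
    rw [mul_div_assoc, mul_div_mul_left _ _ h1.ne']
    field_simp

omit [FiniteDimensional ℝ E] [MeasurableSpace E] [BorelSpace E] in
/-- A radius comparable to the inradius. -/
theorem exists_radius [Nontrivial E] {Ω : Set E} (hΩ : IsOpen Ω) (hb : Bornology.IsBounded Ω)
    (hne : Ω.Nonempty) :
    ∃ (x₀ : E) (r : ℝ), 0 < r ∧ ball x₀ r ⊆ Ω ∧ ∀ x ∈ Ω, ∃ y, y ∉ Ω ∧ dist y x < 2 * r := by
  set S : Set ℝ := {r | 0 < r ∧ ∃ x₀, ball x₀ r ⊆ Ω} with hS
  obtain ⟨x₁, hx₁⟩ := hne
  obtain ⟨r₁, hr₁, hball⟩ := Metric.isOpen_iff.1 hΩ x₁ hx₁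
  have hr₁S : r₁ ∈ S := ⟨hr₁, x₁, hball⟩
  have hbdd : BddAbove S := by
    refine ⟨diam Ω, ?_⟩
    rintro r ⟨hr, x₀, hx₀⟩
    have h1 := diam_mono hx₀ hb
    rw [diam_ball_eq x₀ hr.le] at h1
    linarith
  have hpos : 0 < sSup S := hr₁.trans_le (le_csSup hbdd hr₁S)
  obtain ⟨r, ⟨hr, x₀, hx₀⟩, hlt⟩ := exists_lt_of_lt_csSup ⟨r₁, hr₁S⟩ (half_lt_self hpos)
  refine ⟨x₀, r, hr, hx₀, fun x _ => ?_⟩
  by_contra hcon
  push Not at hcon
  have hsub : ball x (2 * r) ⊆ Ω := by
    intro y hy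
    by_contra hy'
    exact absurd (mem_ball.1 hy) (not_lt.2 (hcon y hy'))
  have : 2 * r ∈ S := ⟨by positivity, x, hsub⟩
  have := le_csSup hbdd this
  linarith

/-- Bernoulli's inequality with a uniform gain on `[0, 1/2]`. -/
theorem bernoulli_gain {p : ℝ} (hp : 1 < p) :
    ∃ κ : ℝ, 0 < κ ∧ ∀ t : ℝ, 0 ≤ t → t ≤ 1 / 2 → 1 + p * (t - 1) + κ ≤ t ^ p := by
  have hc : ContinuousOn (fun t : ℝ => t ^ p - (1 + p * (t - 1))) (Icc 0 (1 / 2)) := by
    refine ContinuousOn.sub ?_ (by fun_prop)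
    exact continuousOn_id.rpow_const fun _ _ => Or.inr (by linarith)
  obtain ⟨t₀, ht₀, hmin⟩ := isCompact_Icc.exists_isMinOn ⟨0, by norm_num⟩ hc
  refine ⟨t₀ ^ p - (1 + p * (t₀ - 1)), ?_, fun t h0 h1 => ?_⟩
  · have := one_add_mul_self_lt_rpow_one_add (s := t₀ - 1) (by linarith [ht₀.1])
      (by linarith [ht₀.2]) hp
    rw [add_sub_cancel] at this
    linarith
  · have : t₀ ^ p - (1 + p * (t₀ - 1)) ≤ t ^ p - (1 + p * (t - 1)) := hmin ⟨h0, h1⟩
    linarith

omit [NormedSpace ℝ E] [FiniteDimensional ℝ E] in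
/-- Quantitative Jensen inequality. -/
theorem jensen_gain {f : E → ℝ} (hf : Continuous f) (hcs : HasCompactSupport f) {Ω : Set E}
    (hΩ : MeasurableSet Ω) (hfin : μ Ω ≠ ⊤) (hsupp : ∀ x, f x ≠ 0 → x ∈ Ω) {m p κ : ℝ}
    (hm : 0 < m) (hp : 1 < p) (hκ : ∀ t : ℝ, 0 ≤ t → t ≤ 1 / 2 → 1 + p * (t - 1) + κ ≤ t ^ p)
    (hmean : ∫ x, |f x| ∂μ = m * μ.real Ω) :
    m ^ p * (μ.real Ω + κ * μ.real (Ω \ {u | m / 2 < |f u|})) ≤ ∫ x, |f x| ^ p ∂μ := by
  set A : Set E := {u | m / 2 < |f u|} with hA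
  set G : Set E := Ω \ A with hG
  have hp0 : 0 < p := by linarith
  have hAm : MeasurableSet A := (isOpen_lt continuous_const hf.abs).measurableSet
  have hGm : MeasurableSet G := hΩ.diff hAm
  have hGfin : μ G ≠ ⊤ := ne_top_of_le_ne_top hfin (measure_mono sdiff_subset)
  have hi1 : Integrable (fun x => |f x|) μ := (hf.integrable_of_hasCompactSupport hcs).abs
  have hi2 : Integrable (fun x => |f x| ^ p) μ := by
    refine (hf.abs.rpow_const fun _ => Or.inr hp0.le).integrable_of_hasCompactSupport ?_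
    exact hcs.comp_left (g := fun t : ℝ => |t| ^ p) (by simp [hp0.ne'])
  have hi3 : Integrable (Ω.indicator (fun _ => (1 : ℝ))) μ :=
    (integrable_indicator_iff hΩ).2 (integrableOn_const hfin)
  have hi4 : Integrable (G.indicator (fun _ => (1 : ℝ))) μ :=
    (integrable_indicator_iff hGm).2 (integrableOn_const hGfin)
  have hpt : ∀ x, m ^ p * ((1 - p) * Ω.indicator (fun _ => (1 : ℝ)) x + p / m * |f x| +
      κ * G.indicator (fun _ => (1 : ℝ)) x) ≤ |f x| ^ p := by
    intro x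
    have hmp : 0 < m ^ p := by positivity
    have hsc : |f x| ^ p = m ^ p * (|f x| / m) ^ p := by
      rw [Real.div_rpow (abs_nonneg _) hm.le]; field_simp
    have ht0 : 0 ≤ |f x| / m := by positivity
    by_cases hxΩ : x ∈ Ω
    · rw [hsc, indicator_of_mem hxΩ]
      refine mul_le_mul_of_nonneg_left ?_ hmp.le
      have e : p / m * |f x| = p * (|f x| / m) := by ring
      by_cases hxG : x ∈ G
      · rw [indicator_of_mem hxG, e]
        have hle : |f x| / m ≤ 1 / 2 := by
          have : ¬ (m / 2 < |f x|) := hxG.2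
          rw [div_le_iff₀ hm]; linarith [not_lt.1 this]
        have := hκ _ ht0 hle
        linarith
      · rw [indicator_of_notMem hxG, e]
        have := one_add_mul_self_le_rpow_one_add (s := |f x| / m - 1) (by linarith) hp.le
        rw [add_sub_cancel] at this
        linarith
    · have h0 : f x = 0 := by
        by_contra h; exact hxΩ (hsupp x h)
      have hxG : x ∉ G := fun h => hxΩ h.1
      rw [indicator_of_notMem hxΩ, indicator_of_notMem hxG, h0]
      simp [Real.zero_rpow hp0.ne']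
  have hle := integral_mono ((((hi3.const_mul (1 - p)).add (hi1.const_mul (p / m))).add
    (hi4.const_mul κ)).const_mul (m ^ p)) hi2 hpt
  refine le_trans (le_of_eq ?_) hle
  simp only [Pi.add_apply]
  have hi5 : Integrable (fun x => (1 - p) * Ω.indicator (fun _ => (1 : ℝ)) x + p / m * |f x|) μ :=
    (hi3.const_mul (1 - p)).add (hi1.const_mul (p / m))
  rw [integral_const_mul, integral_add hi5
    (hi4.const_mul κ), integral_add (hi3.const_mul (1 - p)) (hi1.const_mul (p / m)),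
    integral_const_mul, integral_const_mul, integral_const_mul, integral_indicator hΩ,
    integral_indicator hGm, hmean]
  simp only [integral_const, MeasurableSet.univ, measureReal_restrict_apply, univ_inter,
    smul_eq_mul, mul_one]
  congr 1
  field_simp
  ring

/-- The strict inequality, with the eigenvalue replaced by any lower bound `lam` of the
Rayleigh quotients. -/
theorem strict_polya [Nontrivial E] {p : ℝ} (hp1 : 1 < p) (hp : (finrank ℝ E : ℝ) < p) :
    ∃ c : ℝ, c < 1 ∧ ∀ Ω : Set E, IsOpen Ω → Bornology.IsBounded Ω → Ω.Nonempty →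
      ∀ lam : ℝ, (∀ φ : E → ℝ, ContDiff ℝ (⊤ : ℕ∞) φ → HasCompactSupport φ → tsupport φ ⊆ Ω →
        φ ≠ 0 → lam ≤ (∫ x, ‖fderiv ℝ φ x‖ ^ p ∂μ) / (∫ x, |φ x| ^ p ∂μ)) →
      ∀ ψ : E → ℝ, ContDiff ℝ (⊤ : ℕ∞) ψ → HasCompactSupport ψ → tsupport ψ ⊆ Ω → ψ ≠ 0 →
        lam * ((∫ x, |ψ x| ∂μ) ^ p / (∫ x, ‖fderiv ℝ ψ x‖ ^ p ∂μ)) ≤ c * (μ Ω).toReal ^ (p - 1) := by
  set d : ℕ := finrank ℝ E with hd
  have hp0 : 0 < p := by linarith
  have hβ1 : 0 < 1 - (d : ℝ) / p := by
    have : (d : ℝ) / p < 1 := by rw [div_lt_one hp0]; exact hp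
    linarith
  have hpd : 0 < p - d := by linarith
  obtain ⟨C, hC0, hC⟩ := exists_test μ p
  obtain ⟨κ, hκ0, hκ⟩ := bernoulli_gain hp1
  set C₃ : ℝ := 3 ^ d * (8 * 16 ^ (p - 1) * C / (1 - d / p) ^ p) with hC₃
  have hC₃0 : 0 ≤ C₃ := by positivity
  set a : ℝ := 1 / (4 * (C₃ + 1)) with ha
  have ha0 : 0 < a := by positivity
  have ha1 : a ≤ 1 := by
    rw [ha, div_le_one (by positivity)]; linarith
  have haC : C₃ * a ≤ 1 / 4 := by
    rw [ha, mul_one_div, div_le_div_iff₀ (by positivity) (by positivity)]; linarith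
  set ρ : ℝ := a ^ (1 / (p - d)) with hρ
  have hρ0 : 0 < ρ := by positivity
  have hρ1 : ρ ≤ 1 := Real.rpow_le_one ha0.le ha1 (by positivity)
  have hρa : ρ ^ p = ρ ^ d * a := by
    have h1 : ρ ^ (p - d) = a := by
      rw [hρ, ← Real.rpow_mul ha0.le, one_div_mul_cancel hpd.ne', Real.rpow_one]
    rw [← h1, ← Real.rpow_natCast, ← Real.rpow_add hρ0]
    congr 1; ring
  set δ : ℝ := ρ ^ d / (2 * (3 ^ d + 1)) with hδ
  have hδ0 : 0 < δ := by positivity
  have hη : 0 < κ * δ := by positivity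
  refine ⟨max (1 / 2) (1 / (1 + κ * δ)), ?_, ?_⟩
  · refine max_lt (by norm_num) ?_
    rw [div_lt_one (by positivity)]; linarith
  intro Ω hΩ hb hne lam hlam ψ hψ hcs hsub hψ0
  set c : ℝ := max (1 / 2) (1 / (1 + κ * δ)) with hc
  have hc1 : 1 / 2 ≤ c := le_max_left _ _
  have hc2 : 1 / (1 + κ * δ) ≤ c := le_max_right _ _
  have hc0 : 0 ≤ c := by linarith
  have hΩm : MeasurableSet Ω := hΩ.measurableSet
  have hfin : μ Ω ≠ ⊤ := hb.measure_lt_top.ne
  have hV0 : 0 < μ.real Ω := ENNReal.toReal_pos (hΩ.measure_pos μ hne).ne' hfin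
  change _ ≤ c * μ.real Ω ^ (p - 1)
  set V : ℝ := μ.real Ω with hV
  have hψ1 : ContDiff ℝ 1 ψ := hψ.of_le (by exact_mod_cast le_top)
  have hsupp : ∀ x, ψ x ≠ 0 → x ∈ Ω := fun x hx => hsub (subset_tsupport ψ hx)
  set J : ℝ := ∫ x, ‖fderiv ℝ ψ x‖ ^ p ∂μ with hJ
  have hJ0 : 0 ≤ J := integral_nonneg fun w => by positivity
  set M : ℝ := ∫ x, |ψ x| ∂μ with hM
  have hM0 : 0 ≤ M := integral_nonneg fun w => by positivity
  have hrhs : 0 ≤ c * V ^ (p - 1) := by positivity
  rcases hJ0.eq_or_lt with hJz | hJp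
  · rw [← hJz, div_zero, mul_zero]; exact hrhs
  rcases hM0.eq_or_lt with hMz | hMp
  · rw [← hMz, Real.zero_rpow hp0.ne', zero_div, mul_zero]; exact hrhs
  set m : ℝ := M / V with hm
  have hm0 : 0 < m := by positivity
  have hMm : M = m * V := by rw [hm]; field_simp
  have hmp : 0 < m ^ p := by positivity
  -- it suffices to bound `lam * m ^ p * V` by `c * J`
  suffices hkey : lam * (m ^ p * V) ≤ c * J by
    have e1 : M ^ p = m ^ p * V * V ^ (p - 1) := by
      rw [hMm, Real.mul_rpow hm0.le hV0.le, Real.rpow_sub_one hV0.ne']; field_simp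
    have e2 : lam * (M ^ p / J) = lam * (m ^ p * V) / J * V ^ (p - 1) := by
      rw [e1]; ring
    rw [e2]
    refine mul_le_mul_of_nonneg_right ?_ (by positivity)
    rwa [div_le_iff₀ hJp]
  obtain ⟨x₀, r, hr, hball, hcov⟩ := exists_radius hΩ hb hne
  have hrp : 0 < r ^ p := by positivity
  obtain ⟨φ, hφ1, hφ2, hφ3, hφ4, hφ5⟩ := hC x₀ r hr
  have hlamC : lam ≤ C / r ^ p := hφ5 ▸ hlam φ hφ1 hφ2 (hφ3.trans hball) hφ4
  rcases le_or_gt (2 * (C / r ^ p) * (m ^ p * V)) J with hbig | hsmall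
  · calc lam * (m ^ p * V) ≤ C / r ^ p * (m ^ p * V) :=
          mul_le_mul_of_nonneg_right hlamC (by positivity)
      _ ≤ 1 / 2 * J := by linarith
      _ ≤ c * J := mul_le_mul_of_nonneg_right hc1 hJ0
  · have hcf : Continuous (fderiv ℝ ψ) := hψ1.continuous_fderiv one_ne_zero
    have hint : Integrable (fun w => ‖fderiv ℝ ψ w‖ ^ p) μ := by
      refine (hcf.norm.rpow_const fun _ => Or.inr hp0.le).integrable_of_hasCompactSupport ?_
      exact (hcs.fderiv ℝ).comp_left (g := fun t : E →L[ℝ] ℝ => ‖t‖ ^ p) (by simp [hp0.ne'])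
    have hlow := low_set μ hψ1 hΩm hfin hsupp hm0 hr hρ0 hρ1 hp1.le hp hint hcov
    rw [← hd, ← hJ] at hlow
    set A : Set E := {u | m / 2 < |ψ u|} with hA
    set g : ℝ := μ.real (Ω \ A) with hg
    have hg0 : 0 ≤ g := measureReal_nonneg
    have hAfin : μ A ≠ ⊤ := by
      refine ne_top_of_le_ne_top hfin (measure_mono fun x hx => hsupp x fun h => ?_)
      have : m / 2 < |ψ x| := hx
      rw [h, abs_zero] at this
      linarith
    have hGfin : μ (Ω \ A) ≠ ⊤ := ne_top_of_le_ne_top hfin (measure_mono sdiff_subset)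
    have hVle : V ≤ μ.real A + g := by
      calc V ≤ μ.real (A ∪ (Ω \ A)) :=
            measureReal_mono (fun x hx => by
              by_cases h : x ∈ A
              · exact Or.inl h
              · exact Or.inr ⟨hx, h⟩) (measure_union_ne_top hAfin hGfin)
        _ ≤ _ := measureReal_union_le _ _
    have hKJ : 3 ^ d * (4 * 16 ^ (p - 1) * (ρ * r / (m * (1 - d / p))) ^ p * J) ≤
        ρ ^ d * V / 4 := by
      have e1 : (ρ * r / (m * (1 - d / p))) ^ p = ρ ^ p * r ^ p / (m ^ p * (1 - d / p) ^ p) := by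
        rw [Real.div_rpow (by positivity) (by positivity), Real.mul_rpow hρ0.le hr.le,
          Real.mul_rpow hm0.le hβ1.le]
      have hβp : 0 < (1 - (d : ℝ) / p) ^ p := by positivity
      calc 3 ^ d * (4 * 16 ^ (p - 1) * (ρ * r / (m * (1 - d / p))) ^ p * J)
          ≤ 3 ^ d * (4 * 16 ^ (p - 1) * (ρ * r / (m * (1 - d / p))) ^ p *
            (2 * (C / r ^ p) * (m ^ p * V))) := by gcongr
        _ = ρ ^ d * V * (C₃ * a) := by
            rw [e1, hρa, hC₃]; field_simp; ring
        _ ≤ ρ ^ d * V * (1 / 4) := by gcongr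
        _ = _ := by ring
    have hρd1 : ρ ^ d ≤ 1 := pow_le_one₀ hρ0.le hρ1
    have hρd0 : 0 < ρ ^ d := by positivity
    have h3d : (0 : ℝ) < 3 ^ d := by positivity
    have hgδ : δ * V ≤ g := by
      rw [hδ, div_mul_eq_mul_div, div_le_iff₀ (by positivity)]
      have h1 : 3 / 4 * ρ ^ d * (V - g) ≤ 3 / 4 * ρ ^ d * μ.real A :=
        mul_le_mul_of_nonneg_left (by linarith) (by positivity)
      have h2 : ρ ^ d * g ≤ g := by nlinarith
      nlinarith
    have hjen := jensen_gain μ hψ.continuous hcs hΩm hfin hsupp hm0 hp1 hκ hMm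
    rw [← hA, ← hg, ← hV] at hjen
    have hN : m ^ p * V * (1 + κ * δ) ≤ ∫ x, |ψ x| ^ p ∂μ := by
      refine le_trans ?_ hjen
      have : κ * (δ * V) ≤ κ * g := mul_le_mul_of_nonneg_left hgδ hκ0.le
      calc m ^ p * V * (1 + κ * δ) = m ^ p * (V + κ * (δ * V)) := by ring
        _ ≤ _ := by gcongr
    have hNpos : 0 < m ^ p * V * (1 + κ * δ) := by positivity
    have hl := hlam ψ hψ hcs hsub hψ0
    rw [← hJ] at hl
    have hl2 : lam ≤ J / (m ^ p * V * (1 + κ * δ)) :=
      hl.trans (div_le_div_of_nonneg_left hJ0 hNpos hN)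
    calc lam * (m ^ p * V) ≤ J / (m ^ p * V * (1 + κ * δ)) * (m ^ p * V) :=
          mul_le_mul_of_nonneg_right hl2 (by positivity)
      _ = 1 / (1 + κ * δ) * J := by field_simp
      _ ≤ c * J := mul_le_mul_of_nonneg_right hc2 hJ0

end Pool.Agent.MP_9e511b_an

end
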